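import Mathlib

set_option autoImplicit false

open scoped TensorProduct

namespace Pool.Agent.MP_f1c158_al

/-- The involution `0 <-> 1`, `2 <-> 3`, `4 <-> 5` on `Fin 6`. -/
def st : Fin 6 → Fin 6 := ![1, 0, 3, 2, 5, 4]

lemma st_st (i : Fin 6) : st (st i) = i := by revert i; decide

lemma eq_st_iff (i j : Fin 6) : j = st i ↔ st j = i := by revert i j; decide

lemma st_eq_iff (i j : Fin 6) : st i = j ↔ i = st j := by revert i j; decide

lemma st_inj (i j : Fin 6) : st i = st j ↔ i = j := by revert i j; decide

/-- `st` as a permutation. -/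
def stE : Equiv.Perm (Fin 6) := ⟨st, st, st_st, st_st⟩

section

variable (k : Type) [Field k]

/-- The defining relations of the Hopf algebra. -/
inductive Rel : FreeAlgebra k (Fin 6 × Fin 6) → FreeAlgebra k (Fin 6 × Fin 6) → Prop
  | left (i j : Fin 6) : Rel
      (∑ p : Fin 6, FreeAlgebra.ι k (p, i) * FreeAlgebra.ι k (st p, j)) (if j = st i then 1 else 0)
  | right (i j : Fin 6) : Rel
      (∑ p : Fin 6, FreeAlgebra.ι k (i, p) * FreeAlgebra.ι k (j, st p)) (if j = st i then 1 else 0)

/-- The Hopf algebra, first as an algebra. -/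
def HH : Type := RingQuot (Rel k)

noncomputable instance : Ring (HH k) := inferInstanceAs (Ring (RingQuot (Rel k)))
noncomputable instance : Algebra k (HH k) := inferInstanceAs (Algebra k (RingQuot (Rel k)))

/-- The quotient map. -/
noncomputable def mk : FreeAlgebra k (Fin 6 × Fin 6) →ₐ[k] HH k := RingQuot.mkAlgHom k (Rel k)

/-- The generators. -/
noncomputable def gen (i j : Fin 6) : HH k := mk k (FreeAlgebra.ι k (i, j))

lemma gen_left (i j : Fin 6) :
    ∑ p : Fin 6, gen k p i * gen k (st p) j = if j = st i then 1 else 0 := by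
  have h := RingQuot.mkAlgHom_rel k (Rel.left (k := k) i j)
  have h' : mk k (∑ p : Fin 6, FreeAlgebra.ι k (p, i) * FreeAlgebra.ι k (st p, j))
      = mk k (if j = st i then 1 else 0) := h
  rw [map_sum] at h'
  simp only [map_mul] at h'
  rw [show (∑ p : Fin 6, gen k p i * gen k (st p) j) =
    ∑ x, (mk k) (FreeAlgebra.ι k (x, i)) * (mk k) (FreeAlgebra.ι k (st x, j)) from rfl, h']
  split_ifs <;> simp

lemma gen_right (i j : Fin 6) :
    ∑ p : Fin 6, gen k i p * gen k j (st p) = if j = st i then 1 else 0 := by
  have h := RingQuot.mkAlgHom_rel k (Rel.right (k := k) i j)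
  have h' : mk k (∑ p : Fin 6, FreeAlgebra.ι k (i, p) * FreeAlgebra.ι k (j, st p))
      = mk k (if j = st i then 1 else 0) := h
  rw [map_sum] at h'
  simp only [map_mul] at h'
  rw [show (∑ p : Fin 6, gen k i p * gen k j (st p)) =
    ∑ x, (mk k) (FreeAlgebra.ι k (i, x)) * (mk k) (FreeAlgebra.ι k (j, st x)) from rfl, h']
  split_ifs <;> simp

variable {k}

/-- Universal property. -/
noncomputable def lft {A : Type*} [Ring A] [Algebra k A] (f : Fin 6 → Fin 6 → A)
    (h1 : ∀ i j, ∑ p : Fin 6, f p i * f (st p) j = if j = st i then 1 else 0)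
    (h2 : ∀ i j, ∑ p : Fin 6, f i p * f j (st p) = if j = st i then 1 else 0) :
    HH k →ₐ[k] A :=
  RingQuot.liftAlgHom k ⟨FreeAlgebra.lift k (fun x : Fin 6 × Fin 6 => f x.1 x.2), by
    intro x y hxy
    cases hxy with
    | left i j =>
      rw [map_sum]
      simp only [map_mul, FreeAlgebra.lift_ι_apply]
      rw [h1]; split_ifs <;> simp
    | right i j =>
      rw [map_sum]
      simp only [map_mul, FreeAlgebra.lift_ι_apply]
      rw [h2]; split_ifs <;> simp⟩

lemma lft_gen {A : Type*} [Ring A] [Algebra k A] (f : Fin 6 → Fin 6 → A)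
    (h1 : ∀ i j, ∑ p : Fin 6, f p i * f (st p) j = if j = st i then 1 else 0)
    (h2 : ∀ i j, ∑ p : Fin 6, f i p * f j (st p) = if j = st i then 1 else 0) (i j : Fin 6) :
    lft (k := k) f h1 h2 (gen k i j) = f i j := by
  unfold lft gen mk
  have := RingQuot.liftAlgHom_mkAlgHom_apply k
    (FreeAlgebra.lift k (fun x : Fin 6 × Fin 6 => f x.1 x.2)) (s := Rel k) (by
      intro x y hxy
      cases hxy with
      | left i j =>
        rw [map_sum]
        simp only [map_mul, FreeAlgebra.lift_ι_apply]
        rw [h1]; split_ifs <;> simp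
      | right i j =>
        rw [map_sum]
        simp only [map_mul, FreeAlgebra.lift_ι_apply]
        rw [h2]; split_ifs <;> simp) (FreeAlgebra.ι k (i, j))
  rw [FreeAlgebra.lift_ι_apply] at this
  exact this

lemma mk_surj : Function.Surjective (mk k) := RingQuot.mkAlgHom_surjective k (Rel k)

/-- Induction principle. -/
lemma ind {motive : HH k → Prop}
    (h0 : ∀ r : k, motive (algebraMap k (HH k) r)) (h1 : ∀ i j, motive (gen k i j))
    (hm : ∀ a b, motive a → motive b → motive (a * b))
    (ha : ∀ a b, motive a → motive b → motive (a + b)) (a : HH k) : motive a := by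
  obtain ⟨b, rfl⟩ := mk_surj a
  induction b using FreeAlgebra.induction with
  | grade0 r => rw [AlgHom.commutes]; exact h0 r
  | grade1 x => exact h1 x.1 x.2
  | mul a b iha ihb => rw [map_mul]; exact hm _ _ iha ihb
  | add a b iha ihb => rw [map_add]; exact ha _ _ iha ihb

lemma hom_ext' {A : Type*} [Semiring A] [Algebra k A] {f g : HH k →ₐ[k] A}
    (h : ∀ i j, f (gen k i j) = g (gen k i j)) : f = g := by
  ext a
  induction a using ind with
  | h0 r => simp
  | h1 i j => exact h i j
  | hm a b iha ihb => rw [map_mul, map_mul, iha, ihb]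
  | ha a b iha ihb => rw [map_add, map_add, iha, ihb]

/-- Comultiplication. -/
noncomputable def comulH : HH k →ₐ[k] (HH k ⊗[k] HH k) :=
  lft (fun i j => ∑ p : Fin 6, gen k i p ⊗ₜ[k] gen k p j)
    (by
      intro i j
      have e : ∀ p : Fin 6, (∑ q : Fin 6, gen k p q ⊗ₜ[k] gen k q i) *
          (∑ q : Fin 6, gen k (st p) q ⊗ₜ[k] gen k q j)
          = ∑ q : Fin 6, ∑ r : Fin 6, (gen k p q * gen k (st p) r) ⊗ₜ[k] (gen k q i * gen k r j) := by
        intro p
        rw [Finset.sum_mul_sum]
        simp only [Algebra.TensorProduct.tmul_mul_tmul]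
      simp only [e]
      rw [Finset.sum_comm]
      have e2 : ∀ q : Fin 6, (∑ p : Fin 6, ∑ r : Fin 6,
          (gen k p q * gen k (st p) r) ⊗ₜ[k] (gen k q i * gen k r j))
          = 1 ⊗ₜ[k] (gen k q i * gen k (st q) j) := by
        intro q
        rw [Finset.sum_comm]
        simp only [← TensorProduct.sum_tmul, gen_left]
        rw [Finset.sum_eq_single (st q)]
        · simp
        · intro b _ hb; simp [hb]
        · simp
      simp only [e2, ← TensorProduct.tmul_sum, gen_left]
      split_ifs <;> simp [Algebra.TensorProduct.one_def])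
    (by
      intro i j
      have e : ∀ p : Fin 6, (∑ q : Fin 6, gen k i q ⊗ₜ[k] gen k q p) *
          (∑ q : Fin 6, gen k j q ⊗ₜ[k] gen k q (st p))
          = ∑ q : Fin 6, ∑ r : Fin 6, (gen k i q * gen k j r) ⊗ₜ[k] (gen k q p * gen k r (st p)) := by
        intro p
        rw [Finset.sum_mul_sum]
        simp only [Algebra.TensorProduct.tmul_mul_tmul]
      simp only [e]
      rw [Finset.sum_comm]
      have e2 : ∀ q : Fin 6, (∑ p : Fin 6, ∑ r : Fin 6,
          (gen k i q * gen k j r) ⊗ₜ[k] (gen k q p * gen k r (st p)))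
          = (gen k i q * gen k j (st q)) ⊗ₜ[k] 1 := by
        intro q
        rw [Finset.sum_comm]
        simp only [← TensorProduct.tmul_sum, gen_right]
        rw [Finset.sum_eq_single (st q)]
        · simp
        · intro b _ hb; simp [hb]
        · simp
      simp only [e2, ← TensorProduct.sum_tmul, gen_right]
      split_ifs <;> simp [Algebra.TensorProduct.one_def])

lemma comulH_gen (i j : Fin 6) :
    comulH (gen k i j) = ∑ p : Fin 6, gen k i p ⊗ₜ[k] gen k p j := lft_gen _ _ _ i j

/-- Counit. -/
noncomputable def counitH : HH k →ₐ[k] k :=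
  lft (fun i j => if i = j then 1 else 0)
    (by
      intro i j
      rw [Finset.sum_eq_single i]
      · simp [eq_comm]
      · intro b _ hb; simp [hb]
      · simp)
    (by
      intro i j
      rw [Finset.sum_eq_single i]
      · simp
      · intro b _ hb; simp [hb.symm]
      · simp)

lemma counitH_gen (i j : Fin 6) : counitH (gen k i j) = if i = j then 1 else 0 :=
  lft_gen _ _ _ i j

/-- The antipode as an algebra map to the opposite algebra. -/
noncomputable def antiH : HH k →ₐ[k] (HH k)ᵐᵒᵖ :=
  lft (fun i j => MulOpposite.op (gen k (st j) (st i)))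
    (by
      intro i j
      have := gen_right k (st j) (st i)
      rw [← MulOpposite.unop_inj]
      rw [Finset.unop_sum]
      simp only [MulOpposite.unop_mul, MulOpposite.unop_op, st_st]
      rw [this]
      by_cases h : j = st i
      · rw [if_pos h, if_pos]
        · rfl
        · rw [h, st_st]
      · rw [if_neg h, if_neg]
        · rfl
        · rw [st_st]; exact fun h' => h h'.symm)
    (by
      intro i j
      have := gen_left k (st j) (st i)
      rw [← MulOpposite.unop_inj]
      rw [Finset.unop_sum]
      simp only [MulOpposite.unop_mul, MulOpposite.unop_op, st_st]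
      rw [this]
      by_cases h : j = st i
      · rw [if_pos h, if_pos]
        · rfl
        · rw [h, st_st]
      · rw [if_neg h, if_neg]
        · rfl
        · rw [st_st]; exact fun h' => h h'.symm)

lemma antiH_gen (i j : Fin 6) :
    antiH (gen k i j) = MulOpposite.op (gen k (st j) (st i)) := lft_gen _ _ _ i j

/-- The antipode as a linear map. -/
noncomputable def SH : HH k →ₗ[k] HH k :=
  (MulOpposite.opLinearEquiv k).symm.toLinearMap ∘ₗ (antiH (k := k)).toLinearMap

lemma SH_apply (a : HH k) : SH a = MulOpposite.unop (antiH a) := rfl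

lemma SH_gen (i j : Fin 6) : SH (gen k i j) = gen k (st j) (st i) := by
  rw [SH_apply, antiH_gen]; rfl

lemma SH_mul (a b : HH k) : SH (a * b) = SH b * SH a := by
  rw [SH_apply, map_mul, MulOpposite.unop_mul]; rfl

lemma SH_algebraMap (r : k) : SH (algebraMap k (HH k) r) = algebraMap k (HH k) r := by
  rw [SH_apply, AlgHom.commutes]; rfl

noncomputable instance bialg : Bialgebra k (HH k) :=
  Bialgebra.ofAlgHom comulH counitH
    (by
      apply hom_ext'
      intro i j
      simp only [AlgHom.comp_apply, comulH_gen, map_sum, Algebra.TensorProduct.map_tmul,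
        AlgHom.id_apply, TensorProduct.sum_tmul, TensorProduct.tmul_sum]
      rw [Finset.sum_comm]
      rfl)
    (by
      apply hom_ext'
      intro i j
      simp only [AlgHom.comp_apply, comulH_gen, map_sum, Algebra.TensorProduct.map_tmul,
        AlgHom.id_apply, counitH_gen]
      rw [Finset.sum_eq_single i]
      · simp
      · intro b _ hb; simp [hb.symm]
      · simp)
    (by
      apply hom_ext'
      intro i j
      simp only [AlgHom.comp_apply, comulH_gen, map_sum, Algebra.TensorProduct.map_tmul,
        AlgHom.id_apply, counitH_gen]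
      rw [Finset.sum_eq_single j]
      · simp
      · intro b _ hb; simp [hb]
      · simp)

lemma comul_eq (a : HH k) : Coalgebra.comul (R := k) a = comulH a := rfl
lemma counit_eq (a : HH k) : Coalgebra.counit (R := k) a = counitH a := rfl

/-- Left antipode map. -/
noncomputable def TL : HH k ⊗[k] HH k →ₗ[k] HH k := LinearMap.mul' k (HH k) ∘ₗ SH.rTensor (HH k)
/-- Right antipode map. -/
noncomputable def TR : HH k ⊗[k] HH k →ₗ[k] HH k := LinearMap.mul' k (HH k) ∘ₗ SH.lTensor (HH k)

lemma TL_tmul (a b : HH k) : TL (a ⊗ₜ[k] b) = SH a * b := by simp [TL]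
lemma TR_tmul (a b : HH k) : TR (a ⊗ₜ[k] b) = a * SH b := by simp [TR]

lemma TL_mul (z : HH k ⊗[k] HH k) (a b : HH k) :
    TL (z * (a ⊗ₜ[k] b)) = SH a * TL z * b := by
  induction z with
  | zero => simp
  | tmul c d =>
    rw [Algebra.TensorProduct.tmul_mul_tmul, TL_tmul, TL_tmul, SH_mul]
    simp only [mul_assoc]
  | add x y hx hy => rw [add_mul, map_add, hx, hy, map_add, mul_add, add_mul]

lemma TR_mul (z : HH k ⊗[k] HH k) (a b : HH k) :
    TR ((a ⊗ₜ[k] b) * z) = a * TR z * SH b := by
  induction z with
  | zero => simp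
  | tmul c d =>
    rw [Algebra.TensorProduct.tmul_mul_tmul, TR_tmul, TR_tmul, SH_mul]
    simp only [mul_assoc]
  | add x y hx hy => rw [mul_add, map_add, hx, hy, map_add, mul_add, add_mul]

lemma TL_scal (z w : HH k ⊗[k] HH k) (c : k) (hz : TL z = algebraMap k (HH k) c) :
    TL (z * w) = c • TL w := by
  induction w with
  | zero => simp
  | tmul a b =>
    rw [TL_mul, hz, TL_tmul, ← Algebra.commutes, mul_assoc, Algebra.smul_def]
  | add x y hx hy => rw [mul_add, map_add, hx, hy, map_add, smul_add]

lemma TR_scal (z w : HH k ⊗[k] HH k) (c : k) (hz : TR z = algebraMap k (HH k) c) :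
    TR (w * z) = c • TR w := by
  induction w with
  | zero => simp
  | tmul a b =>
    rw [TR_mul, hz, TR_tmul, ← Algebra.commutes, mul_assoc, Algebra.smul_def]
  | add x y hx hy => rw [add_mul, map_add, hx, hy, map_add, smul_add]

lemma TL_comul (a : HH k) : TL (comulH a) = algebraMap k (HH k) (counitH a) := by
  induction a using ind with
  | h0 r =>
    rw [AlgHom.commutes, AlgHom.commutes, Algebra.TensorProduct.algebraMap_apply, TL_tmul,
      SH_algebraMap, mul_one]
    rfl
  | h1 i j =>
    rw [comulH_gen, map_sum]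
    simp only [TL_tmul, SH_gen, counitH_gen]
    rw [← Equiv.sum_comp stE]
    simp only [stE, Equiv.coe_fn_mk, st_st, gen_left]
    by_cases h : i = j
    · subst h; simp
    · rw [if_neg h, if_neg (fun h' => h h'.symm)]; simp
  | hm a b iha ihb =>
    rw [map_mul, TL_scal _ _ _ iha, ihb, map_mul, map_mul, Algebra.smul_def]
  | ha a b iha ihb => rw [map_add, map_add, iha, ihb, map_add, map_add]

lemma TR_comul (a : HH k) : TR (comulH a) = algebraMap k (HH k) (counitH a) := by
  induction a using ind with
  | h0 r =>
    rw [AlgHom.commutes, AlgHom.commutes, Algebra.TensorProduct.algebraMap_apply, TR_tmul,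
      ← map_one (algebraMap k (HH k)), SH_algebraMap, map_one, mul_one]
    rfl
  | h1 i j =>
    rw [comulH_gen, map_sum]
    simp only [TR_tmul, SH_gen, counitH_gen]
    rw [gen_right]
    by_cases h : i = j
    · subst h; simp
    · rw [if_neg h, if_neg (fun h' => h ((st_inj _ _).1 h').symm)]; simp
  | hm a b iha ihb =>
    rw [map_mul, TR_scal _ _ _ ihb, iha, map_mul, map_mul, Algebra.smul_def, Algebra.commutes]
  | ha a b iha ihb => rw [map_add, map_add, iha, ihb, map_add, map_add]

noncomputable instance hopf : HopfAlgebra k (HH k) where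
  antipode := SH
  mul_antipode_rTensor_comul := by
    ext a
    exact TL_comul a
  mul_antipode_lTensor_comul := by
    ext a
    exact TR_comul a

end

end Pool.Agent.MP_f1c158_al
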