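import Mathlib
import Pool.Agent.Lib.MP_f1c158_al.Hopf

set_option autoImplicit false

open scoped TensorProduct

namespace Pool.Agent.MP_f1c158_al

section

variable {k : Type} [Field k] {R : Type} [Ring R] [Algebra k R]

/-- The bilinear form `(c ⊗ d) ↦ (c x) (d y)` on the tensor square of `H`. -/
noncomputable def Psi (act : HH k →ₐ[k] Module.End k R) (x y : R) : HH k ⊗[k] HH k →ₗ[k] R :=
  TensorProduct.lift ((LinearMap.mul k R).compl₁₂
          (act.toLinearMap.flip x) (act.toLinearMap.flip y))

lemma Psi_tmul (act : HH k →ₐ[k] Module.End k R) (x y : R) (a b : HH k) :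
    Psi act x y (a ⊗ₜ[k] b) = act a x * act b y := by
  simp [Psi]

/-- If the generators satisfy the module-algebra axiom, so does everything. -/
lemma module_algebra (act : HH k →ₐ[k] Module.End k R)
    (hg : ∀ i j x y, act (gen k i j) (x * y) = ∑ p, act (gen k i p) x * act (gen k p j) y)
    (h : HH k) (x y : R) : act h (x * y) = Psi act x y (Coalgebra.comul (R := k) h) := by
  rw [comul_eq]
  induction h using ind generalizing x y with
  | h0 r =>
    rw [AlgHom.commutes, AlgHom.commutes, Algebra.TensorProduct.algebraMap_apply, Psi_tmul,
      AlgHom.commutes, map_one]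
    simp [Module.algebraMap_end_apply]
  | h1 i j =>
    rw [comulH_gen, map_sum, hg]
    simp only [Psi_tmul]
  | hm a b iha ihb =>
    rw [show act (a * b) = act a * act b from map_mul act a b, Module.End.mul_apply, ihb,
      show comulH (a * b) = comulH a * comulH b from map_mul comulH a b]
    have key : ∀ w : HH k ⊗[k] HH k, act a (Psi act x y w) = Psi act x y (comulH a * w) := by
      intro w
      induction w with
      | zero => simp
      | tmul c d =>
        rw [Psi_tmul, iha]
        generalize comulH a = z
        induction z with
        | zero => simp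
        | tmul e f =>
          rw [Psi_tmul, Algebra.TensorProduct.tmul_mul_tmul, Psi_tmul, map_mul, map_mul]
          rfl
        | add z1 z2 h1 h2 => rw [map_add, h1, h2, add_mul, map_add]
      | add z1 z2 h1 h2 => rw [map_add, map_add, h1, h2, mul_add, map_add]
    exact key _
  | ha a b iha ihb => rw [map_add, LinearMap.add_apply, iha, ihb, map_add, map_add]

lemma act_one (act : HH k →ₐ[k] Module.End k R)
    (hg : ∀ i j, act (gen k i j) 1 = if i = j then 1 else 0)
    (h : HH k) : act h 1 = algebraMap k R (Coalgebra.counit (R := k) h) := by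
  rw [counit_eq]
  induction h using ind with
  | h0 r => rw [AlgHom.commutes, AlgHom.commutes]; simp [Module.algebraMap_end_apply, Algebra.smul_def]
  | h1 i j => rw [hg, counitH_gen]; split_ifs <;> simp
  | hm a b iha ihb =>
    rw [show act (a * b) = act a * act b from map_mul act a b, Module.End.mul_apply, ihb,
      Algebra.algebraMap_eq_smul_one, map_smul, iha,
      show counitH (a * b) = counitH a * counitH b from map_mul counitH a b,
      map_mul, Algebra.smul_def, Algebra.commutes]
  | ha a b iha ihb => rw [map_add, LinearMap.add_apply, iha, ihb, map_add, map_add]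

end

section tensor

variable {k : Type} [Field k] {V : Type} [AddCommGroup V] [Module k V]
  (A : Fin 6 → Fin 6 → Module.End k V)

/-- The algebra map `T(V) → M_6(T(V))`. -/
noncomputable def PhiT : TensorAlgebra k V →ₐ[k] Matrix (Fin 6) (Fin 6) (TensorAlgebra k V) :=
  TensorAlgebra.lift k
    (LinearMap.pi fun i => LinearMap.pi fun j => (TensorAlgebra.ι k) ∘ₗ (A i j))

/-- The extended operators on the tensor algebra. -/
noncomputable def al (i j : Fin 6) : Module.End k (TensorAlgebra k V) :=
  (Matrix.entryLinearMap k (TensorAlgebra k V) i j) ∘ₗ (PhiT A).toLinearMap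

lemma al_apply (i j : Fin 6) (x : TensorAlgebra k V) : al A i j x = PhiT A x i j := rfl

lemma al_ι (i j : Fin 6) (v : V) : al A i j (TensorAlgebra.ι k v) = TensorAlgebra.ι k (A i j v) := by
  rw [al_apply, PhiT, TensorAlgebra.lift_ι_apply]; rfl

lemma al_mul (i j : Fin 6) (x y : TensorAlgebra k V) :
    al A i j (x * y) = ∑ p, al A i p x * al A p j y := by
  simp only [al_apply, map_mul, Matrix.mul_apply]

lemma al_algebraMap (i j : Fin 6) (c : k) :
    al A i j (algebraMap k _ c) = if i = j then algebraMap k _ c else 0 := by
  rw [al_apply, AlgHom.commutes, Matrix.algebraMap_matrix_apply]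

lemma al_one (i j : Fin 6) : al A i j 1 = if i = j then 1 else 0 := by
  have := al_algebraMap A i j 1
  rwa [map_one] at this

lemma al_left (hA : ∀ i j, ∑ p : Fin 6, A p i * A (st p) j = if j = st i then 1 else 0)
    (x : TensorAlgebra k V) (i j : Fin 6) :
    ∑ p : Fin 6, al A p i (al A (st p) j x) = if j = st i then x else 0 := by
  induction x using TensorAlgebra.induction generalizing i j with
  | algebraMap r =>
    simp only [al_algebraMap]
    rw [Finset.sum_eq_single i]
    · by_cases h : j = st i
      · rw [if_pos h, if_pos h.symm, al_algebraMap, if_pos rfl]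
      · rw [if_neg h, if_neg (fun h' => h h'.symm), map_zero]
    · intro b _ hb
      split_ifs
      · rw [al_algebraMap, if_neg hb]
      · rw [map_zero]
    · simp
  | ι v =>
    simp only [al_ι]
    rw [← map_sum]
    have h2 := congrArg (fun f : Module.End k V => f v) (hA i j)
    simp only [LinearMap.sum_apply, Module.End.mul_apply] at h2
    rw [h2]
    split_ifs <;> simp
  | mul x y ihx ihy =>
    simp only [al_mul, map_sum]
    calc ∑ p : Fin 6, ∑ q : Fin 6, ∑ r : Fin 6, al A p r (al A (st p) q x) * al A r i (al A q j y)
        = ∑ q : Fin 6, ∑ r : Fin 6, (∑ p : Fin 6, al A p r (al A (st p) q x)) *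
            al A r i (al A q j y) := by
          rw [Finset.sum_comm]
          refine Finset.sum_congr rfl fun q _ => ?_
          rw [Finset.sum_comm]
          refine Finset.sum_congr rfl fun r _ => ?_
          rw [Finset.sum_mul]
      _ = ∑ r : Fin 6, ∑ q : Fin 6, (if q = st r then x else 0) *
            al A r i (al A q j y) := by
          rw [Finset.sum_comm]
          simp only [ihx]
      _ = ∑ r : Fin 6, x * al A r i (al A (st r) j y) := by
          refine Finset.sum_congr rfl fun r _ => ?_
          rw [Finset.sum_eq_single (st r)]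
          · simp
          · intro b _ hb; simp [hb]
          · simp
      _ = _ := by
          rw [← Finset.mul_sum, ihy]
          split_ifs <;> simp
  | add x y ihx ihy =>
    simp only [map_add, Finset.sum_add_distrib, ihx, ihy]
    split_ifs <;> simp

lemma al_right (hA : ∀ i j, ∑ p : Fin 6, A i p * A j (st p) = if j = st i then 1 else 0)
    (x : TensorAlgebra k V) (i j : Fin 6) :
    ∑ p : Fin 6, al A i p (al A j (st p) x) = if j = st i then x else 0 := by
  induction x using TensorAlgebra.induction generalizing i j with
  | algebraMap r =>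
    simp only [al_algebraMap]
    rw [Finset.sum_eq_single i]
    · by_cases h : j = st i
      · rw [if_pos h, al_algebraMap, if_pos rfl]
      · rw [if_neg h, map_zero]
    · intro b _ hb
      split_ifs
      · rw [al_algebraMap, if_neg (fun h => hb h.symm)]
      · rw [map_zero]
    · simp
  | ι v =>
    simp only [al_ι]
    rw [← map_sum]
    have h2 := congrArg (fun f : Module.End k V => f v) (hA i j)
    simp only [LinearMap.sum_apply, Module.End.mul_apply] at h2
    rw [h2]
    split_ifs <;> simp
  | mul x y ihx ihy =>
    simp only [al_mul, map_sum]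
    calc ∑ p : Fin 6, ∑ q : Fin 6, ∑ r : Fin 6, al A i r (al A j q x) * al A r p (al A q (st p) y)
        = ∑ q : Fin 6, ∑ r : Fin 6, al A i r (al A j q x) *
            (∑ p : Fin 6, al A r p (al A q (st p) y)) := by
          rw [Finset.sum_comm]
          refine Finset.sum_congr rfl fun q _ => ?_
          rw [Finset.sum_comm]
          refine Finset.sum_congr rfl fun r _ => ?_
          rw [Finset.mul_sum]
      _ = ∑ r : Fin 6, ∑ q : Fin 6, al A i r (al A j q x) *
            (if q = st r then y else 0) := by
          rw [Finset.sum_comm]
          simp only [ihy]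
      _ = ∑ r : Fin 6, al A i r (al A j (st r) x) * y := by
          refine Finset.sum_congr rfl fun r _ => ?_
          rw [Finset.sum_eq_single (st r)]
          · simp
          · intro b _ hb; simp [hb]
          · simp
      _ = _ := by
          rw [← Finset.sum_mul, ihx]
          split_ifs <;> simp
  | add x y ihx ihy =>
    simp only [map_add, Finset.sum_add_distrib, ihx, ihy]
    split_ifs <;> simp

/-- The action of `H` on the tensor algebra. -/
noncomputable def actT
    (h1 : ∀ i j, ∑ p : Fin 6, A p i * A (st p) j = if j = st i then 1 else 0)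
    (h2 : ∀ i j, ∑ p : Fin 6, A i p * A j (st p) = if j = st i then 1 else 0) :
    HH k →ₐ[k] Module.End k (TensorAlgebra k V) :=
  lft (fun i j => al A i j)
    (by
      intro i j
      ext1 x
      have := al_left A h1 x i j
      simp only [LinearMap.sum_apply, Module.End.mul_apply]
      rw [this]
      split_ifs <;> simp)
    (by
      intro i j
      ext1 x
      have := al_right A h2 x i j
      simp only [LinearMap.sum_apply, Module.End.mul_apply]
      rw [this]
      split_ifs <;> simp)

lemma actT_gen
    (h1 : ∀ i j, ∑ p : Fin 6, A p i * A (st p) j = if j = st i then 1 else 0)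
    (h2 : ∀ i j, ∑ p : Fin 6, A i p * A j (st p) = if j = st i then 1 else 0) (i j : Fin 6) :
    actT A h1 h2 (gen k i j) = al A i j := lft_gen _ _ _ i j

/-- The zero pattern. -/
lemma al_zero_pattern (hz : ∀ i j : Fin 6, i.val < 4 → 2 ≤ j.val → A i j = 0)
    (x : TensorAlgebra k V) : ∀ i j : Fin 6, i.val < 4 → 2 ≤ j.val →
    al A i j x = if i = j then algebraMap k _ (TensorAlgebra.algebraMapInv x) else 0 := by
  induction x using TensorAlgebra.induction with
  | algebraMap r =>
    intro i j _ _
    rw [al_algebraMap, TensorAlgebra.algebraMap_leftInverse]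
  | ι v =>
    intro i j hi hj
    rw [al_ι, hz i j hi hj]
    have : TensorAlgebra.algebraMapInv (TensorAlgebra.ι k v) = 0 := by
      simp [TensorAlgebra.algebraMapInv]
    rw [this]; simp
  | mul x y ihx ihy =>
    intro i j hi hj
    rw [al_mul, map_mul, map_mul]
    have : ∀ p : Fin 6, al A i p x * al A p j y =
        if p = i then (if i = j then algebraMap k (TensorAlgebra k V) (TensorAlgebra.algebraMapInv x) *
          algebraMap k _ (TensorAlgebra.algebraMapInv y) else 0) else 0 := by
      intro p
      by_cases hp : 2 ≤ p.val
      · rw [ihx i p hi hp]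
        by_cases hpi : p = i
        · subst hpi
          rw [if_pos rfl, if_pos rfl, ihy p j hi hj]
          split_ifs <;> simp
        · rw [if_neg (fun h => hpi h.symm), if_neg hpi, zero_mul]
      · have hp4 : p.val < 4 := by omega
        rw [ihy p j hp4 hj, if_neg (by intro h; subst h; omega), mul_zero]
        by_cases hpi : p = i
        · subst hpi
          rw [if_pos rfl, if_neg (by intro h; subst h; omega)]
        · rw [if_neg hpi]
    simp only [this]
    simp
  | add x y ihx ihy =>
    intro i j hi hj
    rw [map_add, ihx i j hi hj, ihy i j hi hj]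
    split_ifs <;> simp

/-- `T(V)` satisfies no polynomial identity when `V` is infinite-dimensional. -/
lemma not_PI (m : ℕ) (p : FreeAlgebra k (Fin m)) (hp : p ≠ 0)
    (v : Fin m → V) (L : V →ₗ[k] FreeAlgebra k (Fin m)) (hL : ∀ i, L (v i) = FreeAlgebra.ι k i) :
    ∃ r : Fin m → TensorAlgebra k V, FreeAlgebra.lift k r p ≠ 0 := by
  refine ⟨fun i => TensorAlgebra.ι k (v i), fun h0 => hp ?_⟩
  have : (TensorAlgebra.lift k L).comp (FreeAlgebra.lift k (fun i => TensorAlgebra.ι k (v i))) =
      AlgHom.id k (FreeAlgebra k (Fin m)) := by
    apply FreeAlgebra.hom_ext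
    funext i
    simp [hL]
  have h1 := congrArg (fun f => f p) this
  simp only [AlgHom.comp_apply, AlgHom.id_apply] at h1
  rw [h0, map_zero] at h1
  exact h1.symm

end tensor

end Pool.Agent.MP_f1c158_al
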