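import Mathlib

set_option autoImplicit false

namespace Pool.Agent.MP_f1c158_al

/-- Base field. -/
abbrev kk : Type := ZMod 2

/-- Free algebra on four letters. -/
abbrev FF : Type := FreeAlgebra kk (Fin 4)

/-- Letters. -/
noncomputable def X (i : Fin 4) : FF := FreeAlgebra.ι kk i

/-- The involution `0 <-> 1`, `2 <-> 3`. -/
def s4 : Fin 4 → Fin 4 := ![1, 0, 3, 2]

lemma s4_s4 (i : Fin 4) : s4 (s4 i) = i := by revert i; decide

lemma two_mod {M : Type*} [AddCommGroup M] [Module kk M] (x : M) : x + x = 0 := by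
  rw [← two_smul kk x, show (2 : kk) = 0 from rfl, zero_smul]

/-- one step -/
noncomputable def stepQ (c : Fin 4) : Module.End kk (FF × (Fin 4 → FF)) where
  toFun y := (X c * y.1, fun i => (if c = s4 i then y.1 else 0) + X i * y.2 c)
  map_add' y z := by
    ext i
    · simp [mul_add]
    · simp only [Prod.fst_add, Prod.snd_add, Pi.add_apply, mul_add]
      split_ifs
      · abel
      · abel
  map_smul' r y := by
    ext i
    · simp
    · simp only [Prod.smul_fst, Prod.smul_snd, Pi.smul_apply, RingHom.id_apply, mul_smul_comm,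
        smul_add]
      split_ifs <;> simp

/-- iterated -/
noncomputable def DD : FF →ₐ[kk] Module.End kk (FF × (Fin 4 → FF)) := FreeAlgebra.lift kk stepQ

lemma DD_X (c : Fin 4) : DD (X c) = stepQ c := by
  unfold DD X; exact FreeAlgebra.lift_ι_apply _ _

lemma DD_fst (w : FF) : ∀ y, (DD w y).1 = w * y.1 := by
  induction w using FreeAlgebra.induction with
  | grade0 r => intro y; rw [AlgHom.commutes]; simp [Module.algebraMap_end_apply, Algebra.smul_def]
  | grade1 x => intro y; rw [show FreeAlgebra.ι kk x = X x from rfl, DD_X]; rfl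
  | mul a b iha ihb =>
    intro y
    rw [map_mul, Module.End.mul_apply, iha, ihb, mul_assoc]
  | add a b iha ihb =>
    intro y
    rw [map_add, LinearMap.add_apply, Prod.fst_add, iha, ihb, add_mul]

/-- start vector -/
noncomputable def v0 : FF × (Fin 4 → FF) := (1, fun i => if i = 1 then 1 else 0)

/-- The operators `Q i`. -/
noncomputable def Q (i : Fin 4) : FF →ₗ[kk] FF where
  toFun w := (DD w v0).2 i
  map_add' a b := by rw [map_add]; rfl
  map_smul' r a := by rw [map_smul]; rfl

lemma Q_one (i : Fin 4) : Q i 1 = if i = 1 then 1 else 0 := by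
  show (DD 1 v0).2 i = _
  rw [map_one]; rfl

lemma Q_cons (i c : Fin 4) (w : FF) :
    Q i (X c * w) = (if c = s4 i then w else 0) + X i * Q c w := by
  show (DD (X c * w) v0).2 i = _
  rw [map_mul, Module.End.mul_apply, DD_X]
  show (if c = s4 i then (DD w v0).1 else 0) + X i * (DD w v0).2 c = _
  rw [DD_fst, show v0.1 = 1 from rfl, mul_one]
  rfl

/-- The quadratic element. -/
noncomputable def rho : FF := ∑ i : Fin 4, X i * X (s4 i)

/-- The left ideal. -/
noncomputable def K : Submodule FF FF :=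
  Submodule.span FF ({X 0 - 1} ∪ Set.range (fun g : FF => rho * g))

lemma K_mul (f z : FF) (hz : z ∈ K) : f * z ∈ K := K.smul_mem f hz

lemma K_x0 : X 0 - 1 ∈ K := Submodule.subset_span (Or.inl rfl)

lemma K_rho (g : FF) : rho * g ∈ K := Submodule.subset_span (Or.inr ⟨g, rfl⟩)

/-- `γ = ∑ P Q*`. -/
noncomputable def gam : FF →ₗ[kk] FF := ∑ i : Fin 4, (LinearMap.mulLeft kk (X i)) ∘ₗ Q (s4 i)

lemma gam_apply (w : FF) : gam w = ∑ i : Fin 4, X i * Q (s4 i) w := by
  simp [gam, LinearMap.sum_apply]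

lemma gam_one : gam 1 = X 0 := by
  rw [gam_apply]
  simp only [Q_one, Fin.sum_univ_four, s4]
  simp

lemma gam_cons (j : Fin 4) (w : FF) : gam (X j * w) = X j * w + rho * Q j w := by
  rw [gam_apply]
  simp only [Q_cons, mul_add, Finset.sum_add_distrib, s4_s4]
  congr 1
  · rw [Finset.sum_eq_single j]
    · simp
    · intro b _ hb; rw [if_neg (fun h => hb h.symm), mul_zero]
    · simp
  · rw [rho, Finset.sum_mul]
    simp only [mul_assoc]

lemma gam_sub_aux (f : FF) : ∀ w : FF, gam w - w ∈ K → gam (f * w) - f * w ∈ K := by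
  induction f using FreeAlgebra.induction with
  | grade0 r =>
    intro w hw
    rw [← Algebra.smul_def, map_smul, ← smul_sub, Algebra.smul_def]
    exact K_mul _ _ hw
  | grade1 x =>
    intro w _
    rw [show FreeAlgebra.ι kk x = X x from rfl, gam_cons, add_sub_cancel_left]
    exact K_rho _
  | mul a b iha ihb => intro w hw; rw [mul_assoc]; exact iha _ (ihb _ hw)
  | add a b iha ihb =>
    intro w hw
    rw [add_mul, map_add, add_sub_add_comm]
    exact K.add_mem (iha _ hw) (ihb _ hw)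

lemma gam_sub (w : FF) : gam w - w ∈ K := by
  have := gam_sub_aux w 1 (by rw [gam_one]; exact K_x0)
  rwa [mul_one] at this

lemma gam_add (w : FF) : w + gam w ∈ K := by
  have h := gam_sub w
  have h2 : w + gam w = gam w - w + (w + w) := by abel
  rw [h2, two_mod, add_zero]; exact h

/-- the sum `∑ Q_k (x_{k*} g) = 4 g + γ g = γ g`. -/
lemma sum_Q_X (g : FF) : ∑ c : Fin 4, Q c (X (s4 c) * g) = gam g := by
  rw [gam_apply]
  simp only [Q_cons, Finset.sum_add_distrib, if_true]
  rw [Finset.sum_const, Finset.card_univ, Fintype.card_fin]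
  rw [show (4 : ℕ) • g = (g + g) + (g + g) by abel, two_mod, zero_add]

lemma Q_rho (i : Fin 4) (g : FF) : Q i (rho * g) = X i * (g + gam g) := by
  rw [rho, Finset.sum_mul, map_sum]
  simp only [mul_assoc, Q_cons]
  rw [Finset.sum_add_distrib, mul_add, ← sum_Q_X, Finset.mul_sum]
  congr 1
  · rw [Finset.sum_eq_single (s4 i)]
    · simp [s4_s4]
    · intro b _ hb; simp [hb]
    · simp
  · refine Finset.sum_congr rfl fun c _ => ?_
    rw [if_pos trivial, Q_cons, if_pos rfl]

lemma Q_stab_aux (f : FF) : ∀ z : FF, z ∈ K → (∀ i, Q i z ∈ K) → ∀ i, Q i (f * z) ∈ K := by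
  induction f using FreeAlgebra.induction with
  | grade0 r =>
    intro z _ hq i
    rw [← Algebra.smul_def, map_smul, Algebra.smul_def]
    exact K_mul _ _ (hq i)
  | grade1 x =>
    intro z hz hq i
    rw [show FreeAlgebra.ι kk x = X x from rfl, Q_cons]
    refine K.add_mem ?_ (K_mul _ _ (hq x))
    split_ifs
    · exact hz
    · exact K.zero_mem
  | mul a b iha ihb =>
    intro z hz hq i
    rw [mul_assoc]
    exact iha _ (K_mul _ _ hz) (ihb _ hz hq) i
  | add a b iha ihb =>
    intro z hz hq i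
    rw [add_mul, map_add]
    exact K.add_mem (iha _ hz hq i) (ihb _ hz hq i)

lemma Q_stab (z : FF) (hz : z ∈ K) : ∀ i, Q i z ∈ K := by
  have : z ∈ K ∧ ∀ i, Q i z ∈ K := by
    unfold K at hz
    induction hz using Submodule.span_induction with
    | mem x hx =>
      rcases hx with hx | ⟨g, rfl⟩
      · rw [Set.mem_singleton_iff] at hx
        subst hx
        refine ⟨K_x0, fun i => ?_⟩
        have h := Q_cons i 0 1
        rw [mul_one, Q_one] at h
        rw [map_sub, h, Q_one]
        have : (if (0 : Fin 4) = s4 i then (1 : FF) else 0) = if i = 1 then 1 else 0 := by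
          fin_cases i <;> simp [s4]
        rw [this]
        simp
      · refine ⟨K_rho g, fun i => ?_⟩
        show Q i (rho * g) ∈ K
        rw [Q_rho]
        exact K_mul _ _ (gam_add g)
    | zero => exact ⟨K.zero_mem, fun i => by rw [map_zero]; exact K.zero_mem⟩
    | add x y _ _ ihx ihy =>
      exact ⟨K.add_mem ihx.1 ihy.1, fun i => by rw [map_add]; exact K.add_mem (ihx.2 i) (ihy.2 i)⟩
    | smul a x _ ih =>
      exact ⟨K.smul_mem a ih.1, Q_stab_aux a x ih.1 ih.2⟩
  exact this.2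

/-- `∑ Q Q*` vanishes mod `K`. -/
noncomputable def rho' : FF →ₗ[kk] FF := ∑ i : Fin 4, Q i ∘ₗ Q (s4 i)

lemma rho'_apply (w : FF) : rho' w = ∑ i : Fin 4, Q i (Q (s4 i) w) := by
  simp [rho', LinearMap.sum_apply]

lemma rho'_one : rho' 1 = 0 := by
  rw [rho'_apply]
  simp only [Q_one, Fin.sum_univ_four, s4]
  simp [Q_one]

lemma rho'_cons (j : Fin 4) (w : FF) : rho' (X j * w) = Q j w + gam (Q j w) := by
  rw [rho'_apply]
  have e : ∀ i : Fin 4, Q i (Q (s4 i) (X j * w)) =
      Q i (if j = i then w else 0) + Q i (X (s4 i) * Q j w) := by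
    intro i
    rw [Q_cons, s4_s4, map_add]
  simp only [e]
  rw [Finset.sum_add_distrib, sum_Q_X]
  congr 1
  rw [Finset.sum_eq_single j]
  · simp
  · intro b _ hb; rw [if_neg (fun h => hb h.symm), map_zero]
  · simp

lemma rho'_aux (f : FF) : ∀ w : FF, rho' w ∈ K → rho' (f * w) ∈ K := by
  induction f using FreeAlgebra.induction with
  | grade0 r =>
    intro w hw
    rw [← Algebra.smul_def, map_smul, Algebra.smul_def]
    exact K_mul _ _ hw
  | grade1 x =>
    intro w _
    rw [show FreeAlgebra.ι kk x = X x from rfl, rho'_cons]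
    exact gam_add _
  | mul a b iha ihb => intro w hw; rw [mul_assoc]; exact iha _ (ihb _ hw)
  | add a b iha ihb =>
    intro w hw
    rw [add_mul, map_add]
    exact K.add_mem (iha _ hw) (ihb _ hw)

lemma rho'_mem (w : FF) : rho' w ∈ K := by
  have := rho'_aux w 1 (by rw [rho'_one]; exact K.zero_mem)
  rwa [mul_one] at this

/-- The character. -/
noncomputable def chi : FF →ₐ[kk] kk := FreeAlgebra.lift kk (fun i => if i = 0 then 1 else 0)

lemma chi_X (i : Fin 4) : chi (X i) = if i = 0 then 1 else 0 := by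
  unfold chi X; exact FreeAlgebra.lift_ι_apply _ _

lemma chi_rho : chi rho = 0 := by
  rw [rho, map_sum]
  simp only [map_mul, chi_X, Fin.sum_univ_four, s4]
  simp

lemma chi_K (z : FF) (hz : z ∈ K) : chi z = 0 := by
  unfold K at hz
  induction hz using Submodule.span_induction with
  | mem x hx =>
    rcases hx with hx | ⟨g, rfl⟩
    · rw [Set.mem_singleton_iff] at hx
      subst hx
      rw [map_sub, chi_X, map_one]; simp
    · show chi (rho * g) = 0
      rw [map_mul, chi_rho, zero_mul]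
  | zero => exact map_zero _
  | add x y _ _ ihx ihy => rw [map_add, ihx, ihy, add_zero]
  | smul a x _ ih => rw [smul_eq_mul, map_mul, ih, mul_zero]

/-- `K` as a vector space. -/
noncomputable def Kk : Submodule kk FF := K.restrictScalars kk

lemma mem_Kk (z : FF) : z ∈ Kk ↔ z ∈ K := Iff.rfl

/-- The space `U`. -/
abbrev U : Type := FF ⧸ Kk

/-- Operators on `U`. -/
noncomputable def Pu (i : Fin 4) : Module.End kk U :=
  Kk.mapQ Kk (LinearMap.mulLeft kk (X i)) (fun _ hz => K_mul _ _ hz)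

noncomputable def Qu (i : Fin 4) : Module.End kk U :=
  Kk.mapQ Kk (Q i) (fun _ hz => Q_stab _ hz i)

lemma Pu_mk (i : Fin 4) (w : FF) : Pu i (Kk.mkQ w) = Kk.mkQ (X i * w) := rfl
lemma Qu_mk (i : Fin 4) (w : FF) : Qu i (Kk.mkQ w) = Kk.mkQ (Q i w) := rfl

lemma mkQ_eq (a b : FF) (h : a - b ∈ K) : Kk.mkQ a = Kk.mkQ b := by
  rw [← sub_eq_zero, ← map_sub, Submodule.mkQ_apply, Submodule.Quotient.mk_eq_zero]
  exact h

lemma rel1 (i c : Fin 4) (u : U) :
    Pu i (Qu c u) + Qu i (Pu c u) = if c = s4 i then u else 0 := by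
  obtain ⟨w, rfl⟩ := Kk.mkQ_surjective u
  rw [Qu_mk, Pu_mk, Pu_mk, Qu_mk, Q_cons, map_add]
  have h := two_mod (Kk.mkQ (X i * Q c w))
  rw [add_comm (Kk.mkQ _) (Kk.mkQ (X i * Q c w)), ← add_assoc, h, zero_add]
  split_ifs <;> simp

lemma rel2 (u : U) : ∑ i : Fin 4, Pu i (Pu (s4 i) u) = 0 := by
  obtain ⟨w, rfl⟩ := Kk.mkQ_surjective u
  simp only [Pu_mk]
  rw [← map_sum]
  have : ∑ i : Fin 4, X i * (X (s4 i) * w) = rho * w := by
    rw [rho, Finset.sum_mul]; simp only [mul_assoc]
  rw [this]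
  have h := mkQ_eq (rho * w) 0 (by rw [sub_zero]; exact K_rho w)
  rw [h, map_zero]

lemma rel3 (u : U) : ∑ i : Fin 4, Qu i (Qu (s4 i) u) = 0 := by
  obtain ⟨w, rfl⟩ := Kk.mkQ_surjective u
  simp only [Qu_mk]
  rw [← map_sum, ← rho'_apply]
  have h := mkQ_eq (rho' w) 0 (by rw [sub_zero]; exact rho'_mem w)
  rw [h, map_zero]

lemma rel4 (u : U) : ∑ i : Fin 4, Pu i (Qu (s4 i) u) = u := by
  obtain ⟨w, rfl⟩ := Kk.mkQ_surjective u
  simp only [Qu_mk, Pu_mk]
  rw [← map_sum, ← gam_apply]
  exact mkQ_eq _ _ (gam_sub w)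

lemma rel5 (u : U) : ∑ i : Fin 4, Qu i (Pu (s4 i) u) = u := by
  obtain ⟨w, rfl⟩ := Kk.mkQ_surjective u
  simp only [Qu_mk, Pu_mk]
  rw [← map_sum, sum_Q_X]
  exact mkQ_eq _ _ (gam_sub w)

/-- character on `U` -/
noncomputable def chiU : U →ₗ[kk] kk := Kk.liftQ chi.toLinearMap (fun _ hz => chi_K _ hz)

lemma chiU_one : chiU (Kk.mkQ 1) = 1 := by
  show chi 1 = 1
  exact map_one _

end Pool.Agent.MP_f1c158_al
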