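import Mathlib
import Pool.Agent.Lib.MP_f1c158_al.Action
import Pool.Agent.Lib.MP_f1c158_al.Op

set_option autoImplicit false

namespace Pool.Agent.MP_f1c158_al

/-- The module on which the tensor algebra is built. -/
abbrev V : Type := ℕ → U

/-- Operators on `V`. -/
noncomputable def Pv (i : Fin 4) : Module.End kk V := (Pu i).compLeft ℕ
noncomputable def Qv (i : Fin 4) : Module.End kk V := (Qu i).compLeft ℕ

lemma Pv_apply (i : Fin 4) (v : V) (n : ℕ) : Pv i v n = Pu i (v n) := rfl
lemma Qv_apply (i : Fin 4) (v : V) (n : ℕ) : Qv i v n = Qu i (v n) := rfl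

lemma relv1 (i c : Fin 4) : Pv i * Qv c + Qv i * Pv c = if c = s4 i then 1 else 0 := by
  ext v n
  rw [LinearMap.add_apply, Pi.add_apply, Module.End.mul_apply, Module.End.mul_apply, Pv_apply,
    Qv_apply, Qv_apply, Pv_apply, rel1]
  split_ifs <;> rfl

lemma relv2 : ∑ i : Fin 4, Pv i * Pv (s4 i) = 0 := by
  ext v n
  rw [LinearMap.sum_apply, Finset.sum_apply]
  simp only [Module.End.mul_apply, Pv_apply]
  exact rel2 _

lemma relv3 : ∑ i : Fin 4, Qv i * Qv (s4 i) = 0 := by
  ext v n
  rw [LinearMap.sum_apply, Finset.sum_apply]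
  simp only [Module.End.mul_apply, Qv_apply]
  exact rel3 _

lemma relv4 : ∑ i : Fin 4, Pv i * Qv (s4 i) = 1 := by
  ext v n
  rw [LinearMap.sum_apply, Finset.sum_apply]
  simp only [Module.End.mul_apply, Qv_apply, Pv_apply]
  exact rel4 _

lemma relv5 : ∑ i : Fin 4, Qv i * Pv (s4 i) = 1 := by
  ext v n
  rw [LinearMap.sum_apply, Finset.sum_apply]
  simp only [Module.End.mul_apply, Qv_apply, Pv_apply]
  exact rel5 _

/-- The six by six matrix of operators. -/
noncomputable def AA : Fin 6 → Fin 6 → Module.End kk V :=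
  ![![Pv 0, Qv 0, 0, 0, 0, 0], ![Pv 1, Qv 1, 0, 0, 0, 0],
    ![Pv 2, Qv 2, 0, 0, 0, 0], ![Pv 3, Qv 3, 0, 0, 0, 0],
    ![0, 0, Pv 0, Pv 1, Pv 2, Pv 3], ![0, 0, Qv 0, Qv 1, Qv 2, Qv 3]]

lemma AA_left (i j : Fin 6) :
    ∑ p : Fin 6, AA p i * AA (st p) j = if j = st i then 1 else 0 := by
  have r2 := relv2
  have r3 := relv3
  have r4 := relv4
  have r5 := relv5
  have r1 := relv1
  simp only [Fin.sum_univ_four, s4] at r2 r3 r4 r5
  simp only [Fin.sum_univ_six]
  fin_cases i <;> fin_cases j <;>
    simp [AA, st] <;> first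
      | simpa using r2
      | simpa using r3
      | simpa using r4
      | simpa using r5
      | simpa [s4] using r1 0 0
      | simpa [s4] using r1 0 1
      | simpa [s4] using r1 0 2
      | simpa [s4] using r1 0 3
      | simpa [s4] using r1 1 0
      | simpa [s4] using r1 1 1
      | simpa [s4] using r1 1 2
      | simpa [s4] using r1 1 3
      | simpa [s4] using r1 2 0
      | simpa [s4] using r1 2 1
      | simpa [s4] using r1 2 2
      | simpa [s4] using r1 2 3
      | simpa [s4] using r1 3 0
      | simpa [s4] using r1 3 1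
      | simpa [s4] using r1 3 2
      | simpa [s4] using r1 3 3

lemma AA_right (i j : Fin 6) :
    ∑ p : Fin 6, AA i p * AA j (st p) = if j = st i then 1 else 0 := by
  have r2 := relv2
  have r3 := relv3
  have r4 := relv4
  have r5 := relv5
  have r1 := relv1
  simp only [Fin.sum_univ_four, s4] at r2 r3 r4 r5
  simp only [Fin.sum_univ_six]
  fin_cases i <;> fin_cases j <;>
    simp [AA, st] <;> first
      | simpa using r2
      | simpa using r3
      | simpa using r4
      | simpa using r5
      | simpa [s4] using r1 0 0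
      | simpa [s4] using r1 0 1
      | simpa [s4] using r1 0 2
      | simpa [s4] using r1 0 3
      | simpa [s4] using r1 1 0
      | simpa [s4] using r1 1 1
      | simpa [s4] using r1 1 2
      | simpa [s4] using r1 1 3
      | simpa [s4] using r1 2 0
      | simpa [s4] using r1 2 1
      | simpa [s4] using r1 2 2
      | simpa [s4] using r1 2 3
      | simpa [s4] using r1 3 0
      | simpa [s4] using r1 3 1
      | simpa [s4] using r1 3 2
      | simpa [s4] using r1 3 3

lemma AA_zero (i j : Fin 6) (hi : i.val < 4) (hj : 2 ≤ j.val) : AA i j = 0 := by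
  fin_cases i <;> fin_cases j <;> first | rfl | (simp at hi hj)

/-- The ring. -/
abbrev RR : Type := TensorAlgebra kk V

/-- The action. -/
noncomputable def act : HH kk →ₐ[kk] Module.End kk RR := actT AA AA_left AA_right

lemma act_gen (i j : Fin 6) : act (gen kk i j) = al AA i j := actT_gen _ _ _ i j

lemma act_22 (x : RR) :
    act (gen kk 2 2) x = algebraMap kk RR (TensorAlgebra.algebraMapInv x) := by
  rw [act_gen, al_zero_pattern AA AA_zero x 2 2 (by decide) (by decide), if_pos rfl]

lemma act_mod (h : HH kk) (x y : RR) : act h (x * y) =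
    TensorProduct.lift ((LinearMap.mul kk RR).compl₁₂
          (act.toLinearMap.flip x) (act.toLinearMap.flip y))
          (Coalgebra.comul (R := kk) h) := by
  refine module_algebra act (fun i j x y => ?_) h x y
  rw [act_gen, al_mul]
  simp only [act_gen]

lemma act_unit (h : HH kk) : act h 1 = algebraMap kk RR (Coalgebra.counit (R := kk) h) := by
  refine act_one act (fun i j => ?_) h
  rw [act_gen, al_one]

lemma act_22_one : act (gen kk 2 2) (1 : RR) = 1 := by
  rw [act_22, map_one, map_one]

lemma no_PI (m : ℕ) (p : FreeAlgebra kk (Fin m)) (hp : p ≠ 0) :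
    ∃ r : Fin m → RR, FreeAlgebra.lift kk r p ≠ 0 := by
  refine not_PI m p hp (fun i => Pi.single (i : ℕ) (Kk.mkQ 1))
    (∑ i : Fin m, (LinearMap.toSpanSingleton kk _ (FreeAlgebra.ι kk i)) ∘ₗ chiU ∘ₗ
      (LinearMap.proj (i : ℕ))) (fun i => ?_)
  rw [LinearMap.sum_apply, Finset.sum_eq_single i]
  · simp only [LinearMap.comp_apply, LinearMap.proj_apply, Pi.single_eq_same, chiU_one]
    simp
  · intro j _ hj
    have : (j : ℕ) ≠ (i : ℕ) := fun h => hj (Fin.ext h)
    simp only [LinearMap.comp_apply, LinearMap.proj_apply, Pi.single_eq_of_ne this, map_zero]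
  · simp

end Pool.Agent.MP_f1c158_al
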